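import Pool.Agent.W47.KA.Defs2

/-! Project JL (helper47), NF: Liouville's inequality for linear forms in a basis of a real number
field. -/

set_option autoImplicit false

namespace Pool.Agent.W591.JL

open Pool.Agent.W47.KA Pool.Agent.W472.AC Finset

theorem exists_mult (K : IntermediateField ℚ ℝ) [FiniteDimensional ℚ K] (s : Finset K) :
    ∃ D : ℤ, D ≠ 0 ∧ ∀ z ∈ s, IsIntegral ℤ ((D : K) * z) := by
  have : Algebra.IsAlgebraic ℤ K :=
    (IsFractionRing.comap_isAlgebraic_iff (A := ℤ) (K := ℚ) (C := K)).2 inferInstance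
  obtain ⟨D, hD, h⟩ := Algebra.IsAlgebraic.exists_integral_multiples ℤ s
  refine ⟨D, hD, fun z hz => ?_⟩
  have := h z hz
  rwa [zsmul_eq_mul] at this

theorem one_le_prod (K : IntermediateField ℚ ℝ) [FiniteDimensional ℚ K] (y : K)
    (hy : IsIntegral ℤ y) (hy0 : y ≠ 0) : 1 ≤ ∏ σ : K →ₐ[ℚ] ℂ, ‖σ y‖ := by
  have h1 : IsIntegral ℤ (Algebra.norm ℚ y) := Algebra.isIntegral_norm ℚ hy
  obtain ⟨m, hm⟩ := IsIntegrallyClosed.isIntegral_iff.1 h1
  have h2 : Algebra.norm ℚ y ≠ 0 := Algebra.norm_ne_zero_iff.2 hy0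
  have hm0 : m ≠ 0 := by
    rintro rfl
    apply h2
    rw [← hm, map_zero]
  have h3 := Algebra.norm_eq_prod_embeddings ℚ ℂ y
  rw [← norm_prod, ← h3, ← hm]
  have h4 : (algebraMap ℚ ℂ) ((algebraMap ℤ ℚ) m) = (m : ℂ) := by simp
  rw [h4, Complex.norm_intCast]
  exact_mod_cast Int.one_le_abs hm0

/-- the inclusion -/
noncomputable def inc (K : IntermediateField ℚ ℝ) : K →ₐ[ℚ] ℂ :=
  (Complex.ofRealAm.restrictScalars ℚ).comp K.val

theorem inc_apply (K : IntermediateField ℚ ℝ) (y : K) : inc K y = ((y : ℝ) : ℂ) := rfl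

theorem nf : S_NF := by
  classical
  intro n K x hn hfin hx hli
  have : FiniteDimensional ℚ K := FiniteDimensional.of_finrank_pos (by omega)
  set X : Fin n → K := fun s => ⟨x s, hx s⟩ with hX
  obtain ⟨D, hD, hint⟩ := exists_mult K (univ.image X)
  set S : ℝ := 1 + ∑ s, ∑ σ : K →ₐ[ℚ] ℂ, ‖σ (X s)‖ with hS
  have hS1 : 1 ≤ S := by
    have : 0 ≤ ∑ s, ∑ σ : K →ₐ[ℚ] ℂ, ‖σ (X s)‖ :=
      sum_nonneg fun _ _ => sum_nonneg fun _ _ => norm_nonneg _
    linarith
  have hDa : (1 : ℝ) ≤ |(D : ℝ)| := by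
    have := Int.one_le_abs hD
    exact_mod_cast this
  have hDpos : (0 : ℝ) < |(D : ℝ)| := by linarith
  set C : ℝ := |(D : ℝ)| * S with hC
  have hCpos : 0 < C := by positivity
  refine ⟨1 / (|(D : ℝ)| * C ^ n), by positivity, ?_⟩
  intro u v huv H hH huH hvH
  have hH0 : 0 < H := by linarith
  set θ : K := (u : K) + ∑ s, (v s : K) * X s with hθ
  have hθr : (θ : ℝ) = u + ∑ s, (v s : ℝ) * x s := by
    rw [hθ]
    push_cast
    rfl
  have hθ0 : θ ≠ 0 := by
    intro h0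
    have h1 : (u : ℝ) + ∑ s, (v s : ℝ) * x s = 0 := by
      rw [← hθr, h0]
      rfl
    rw [Fintype.linearIndependent_iff] at hli
    have h2 := hli (Fin.cons (u : ℚ) (fun s => (v s : ℚ)) : Fin (n + 1) → ℚ) (by
      rw [Fin.sum_univ_succ]
      simp only [Fin.cons_zero, Fin.cons_succ, Rat.smul_def, mul_one]
      rw [← h1]
      push_cast
      rfl)
    rcases huv with h3 | h3
    · apply h3
      have := h2 0
      simpa using this
    · apply h3
      funext s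
      have := h2 s.succ
      simpa using this
  have hDθ : IsIntegral ℤ ((D : K) * θ) := by
    have e : (D : K) * θ = ((D * u : ℤ) : K) + ∑ s, (v s : K) * ((D : K) * X s) := by
      rw [hθ, mul_add, mul_sum]
      push_cast
      congr 1
      refine sum_congr rfl fun s _ => ?_
      ring
    rw [e]
    refine IsIntegral.add ?_ ?_
    · exact isIntegral_algebraMap (R := ℤ) (A := K) (x := D * u)
    · refine IsIntegral.sum _ fun s _ => ?_
      refine IsIntegral.mul ?_ (hint _ (mem_image_of_mem _ (mem_univ _)))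
      exact isIntegral_algebraMap (R := ℤ) (A := K) (x := v s)
  have hDθ0 : (D : K) * θ ≠ 0 := mul_ne_zero (Int.cast_ne_zero.2 hD) hθ0
  have h1 := one_le_prod K _ hDθ hDθ0
  have hbound : ∀ σ : K →ₐ[ℚ] ℂ, ‖σ ((D : K) * θ)‖ ≤ C * H := by
    intro σ
    have e : σ ((D : K) * θ) = (D : ℂ) * ((u : ℂ) + ∑ s, (v s : ℂ) * σ (X s)) := by
      rw [hθ]
      simp
    rw [e, norm_mul, Complex.norm_intCast, hC, mul_assoc]
    refine mul_le_mul_of_nonneg_left ?_ hDpos.le
    calc ‖(u : ℂ) + ∑ s, (v s : ℂ) * σ (X s)‖ ≤ ‖(u : ℂ)‖ + ‖∑ s, (v s : ℂ) * σ (X s)‖ :=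
          norm_add_le _ _
      _ ≤ H + ∑ s, H * ∑ σ' : K →ₐ[ℚ] ℂ, ‖σ' (X s)‖ := by
          refine add_le_add ?_ ?_
          · rw [Complex.norm_intCast]
            exact huH
          · refine (norm_sum_le _ _).trans (sum_le_sum fun s _ => ?_)
            rw [norm_mul, Complex.norm_intCast]
            refine mul_le_mul (hvH s) ?_ (norm_nonneg _) hH0.le
            exact single_le_sum (f := fun σ' : K →ₐ[ℚ] ℂ => ‖σ' (X s)‖)
              (fun _ _ => norm_nonneg _) (mem_univ σ)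
      _ = S * H := by
          rw [← mul_sum, hS]
          ring
  have hcard : (univ.erase (inc K)).card = n := by
    rw [card_erase_of_mem (mem_univ _), card_univ, AlgHom.card, hfin]
    rfl
  rw [← mul_prod_erase univ (fun σ : K →ₐ[ℚ] ℂ => ‖σ ((D : K) * θ)‖) (mem_univ (inc K))] at h1
  have h2 : ∏ σ ∈ univ.erase (inc K), ‖σ ((D : K) * θ)‖ ≤ (C * H) ^ n := by
    calc ∏ σ ∈ univ.erase (inc K), ‖σ ((D : K) * θ)‖ ≤ ∏ _σ ∈ univ.erase (inc K), C * H :=
          prod_le_prod (fun _ _ => norm_nonneg _) fun σ _ => hbound σ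
      _ = (C * H) ^ n := by rw [prod_const, hcard]
  have h3 : ‖inc K ((D : K) * θ)‖ = |(D : ℝ)| * |u + ∑ s, (v s : ℝ) * x s| := by
    rw [inc_apply, Complex.norm_real, Real.norm_eq_abs, ← hθr, ← abs_mul]
    push_cast
    rfl
  rw [h3] at h1
  have h4 : 1 ≤ |(D : ℝ)| * |u + ∑ s, (v s : ℝ) * x s| * (C * H) ^ n :=
    h1.trans (mul_le_mul_of_nonneg_left h2 (by positivity))
  rw [Real.rpow_natCast, div_le_iff₀ (by positivity)]
  calc (1 : ℝ) ≤ |(D : ℝ)| * |u + ∑ s, (v s : ℝ) * x s| * (C * H) ^ n := h4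
    _ = H ^ n * |u + ∑ s, (v s : ℝ) * x s| * (|(D : ℝ)| * C ^ n) := by
        rw [mul_pow]; ring

end Pool.Agent.W591.JL
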